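import Mathlib

namespace Pool.Agent.Results.MP_51a8c5_co.Cliques

open Polynomial Finset

open Classical in
/-- The connected set polynomial `C(G;x)`: `S` is connected iff `G[S]` is connected
(Mathlib's `Connected` includes nonemptiness). -/
noncomputable def Cpoly {V : Type} [Fintype V] (G : SimpleGraph V) : ℝ[X] :=
  ∑ S ∈ (univ : Finset (Finset V)).filter (fun S : Finset V => (G.induce (S : Set V)).Connected),
    X ^ S.card

open Classical in
/-- The node reliability polynomial `NRel(G;p)`. -/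
noncomputable def NRel {V : Type} [Fintype V] (G : SimpleGraph V) : ℝ[X] :=
  ∑ S ∈ (univ : Finset (Finset V)).filter (fun S : Finset V => (G.induce (S : Set V)).Connected),
    X ^ S.card * (1 - X) ^ (Fintype.card V - S.card)

/-- Every complex root is real. -/
def AllReal (p : ℝ[X]) : Prop := ∀ z : ℂ, aeval z p = 0 → z.im = 0

lemma nrel_of_c {V : Type} [Fintype V] (G : SimpleGraph V) (h : AllReal (Cpoly G)) :
    AllReal (NRel G) := by
  classical
  intro z hz
  by_cases h1 : z = 1
  · simp [h1]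
  have h1' : (1 - z) ≠ 0 := sub_ne_zero.mpr (Ne.symm h1)
  have key : aeval z (NRel G) = (1 - z) ^ Fintype.card V * aeval (z / (1 - z)) (Cpoly G) := by
    unfold NRel Cpoly
    simp only [map_sum, map_mul, map_pow, map_sub, map_one, aeval_X, mul_sum]
    refine sum_congr rfl fun S _ => ?_
    have hS : S.card ≤ Fintype.card V := card_le_univ S
    obtain ⟨k, hk⟩ := Nat.exists_eq_add_of_le hS
    rw [hk, Nat.add_sub_cancel_left, div_pow, pow_add]
    field_simp
  rw [key] at hz
  have h2 := h _ ((mul_eq_zero.mp hz).resolve_left (pow_ne_zero _ h1'))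
  set w := z / (1 - z) with hw
  have h3 : z = w * (1 - z) := by rw [hw]; field_simp
  have h4 := congrArg Complex.im h3
  have h5 := congrArg Complex.re h3
  simp [h2] at h4 h5
  by_contra hne
  have h6 : w.re = -1 := by
    have : z.im * (1 + w.re) = 0 := by linarith
    have := (mul_eq_zero.mp this).resolve_left hne
    linarith
  rw [h6] at h5
  linarith

/-- Disjoint union of cliques of sizes `s i`. -/
def cl {ι : Type} (s : ι → ℕ) : SimpleGraph (Σ i, Fin (s i)) where
  Adj u v := u ≠ v ∧ u.1 = v.1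
  symm := ⟨fun _ _ h => ⟨h.1.symm, h.2.symm⟩⟩
  loopless := ⟨fun _ h => h.1 rfl⟩

lemma cl_reach {ι : Type} (s : ι → ℕ) (T : Set (Σ i, Fin (s i))) (u v : T)
    (h : ((cl s).induce T).Reachable u v) : u.1.1 = v.1.1 := by
  obtain ⟨p⟩ := h
  induction p with
  | nil => rfl
  | cons h _ ih => exact h.2.trans ih

lemma cl_conn {ι : Type} (s : ι → ℕ) (S : Finset (Σ i, Fin (s i))) :
    ((cl s).induce (S : Set (Σ i, Fin (s i)))).Connected ↔ S.Nonempty ∧ ∃ i, ∀ u ∈ S, u.1 = i := by
  constructor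
  · intro h
    obtain ⟨u⟩ := h.nonempty
    refine ⟨⟨u.1, u.2⟩, u.1.1, fun v hv => ?_⟩
    exact cl_reach s _ ⟨v, hv⟩ u (h.preconnected _ _)
  · rintro ⟨⟨u, hu⟩, i, hi⟩
    have : Nonempty (S : Set (Σ i, Fin (s i))) := ⟨⟨u, hu⟩⟩
    refine ⟨fun a b => ?_⟩
    by_cases hab : a = b
    · rw [hab]
    · refine SimpleGraph.Adj.reachable ?_
      exact ⟨fun h => hab (Subtype.ext h), (hi _ a.2).trans (hi _ b.2).symm⟩

lemma cl_poly {ι : Type} [Fintype ι] (s : ι → ℕ) :
    Cpoly (cl s) = ∑ i, ((1 + X) ^ s i - 1) := by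
  classical
  unfold Cpoly
  have h1 : ∀ S : Finset (Σ i, Fin (s i)), ((cl s).induce (S : Set (Σ i, Fin (s i)))).Connected ↔
      S ∈ univ.biUnion (fun i => ((univ.filter (fun u : (Σ i, Fin (s i)) => u.1 = i)).powerset.erase ∅)) := by
    intro S
    simp only [mem_filter, mem_univ, true_and, cl_conn, mem_biUnion, mem_erase, mem_powerset,
      nonempty_iff_ne_empty, subset_iff]
    constructor
    · rintro ⟨h, i, hi⟩; exact ⟨i, h, fun u hu => hi u hu⟩
    · rintro ⟨i, h, hi⟩; exact ⟨h, i, fun u hu => hi hu⟩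
  have h2 : ∀ i, ∑ S ∈ ((univ.filter (fun u : (Σ i, Fin (s i)) => u.1 = i)).powerset.erase ∅),
      (X : ℝ[X]) ^ S.card = (1 + X) ^ s i - 1 := by
    intro i
    have hc : (univ.filter (fun u : (Σ i, Fin (s i)) => u.1 = i)).card = s i := by
      have : (univ.filter (fun u : (Σ i, Fin (s i)) => u.1 = i)) =
          univ.map ⟨fun a : Fin (s i) => (⟨i, a⟩ : Σ i, Fin (s i)), fun a b h => by simpa using h⟩ := by
        ext ⟨j, b⟩
        simp only [mem_filter, mem_univ, true_and, mem_map]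
        constructor
        · rintro rfl; exact ⟨b, rfl⟩
        · rintro ⟨a, h⟩; exact (congrArg Sigma.fst h).symm
      rw [this]; simp
    have h3 := Finset.prod_one_add (s := univ.filter (fun u : (Σ i, Fin (s i)) => u.1 = i))
      (f := fun _ => (X : ℝ[X]))
    simp only [prod_const, hc] at h3
    rw [h3, ← Finset.add_sum_erase _ _ (empty_mem_powerset _)]
    simp
  have h4 : ∀ (A : Finset (Finset (Σ i, Fin (s i)))),
      (∀ S, S ∈ A ↔ ((cl s).induce (S : Set (Σ i, Fin (s i)))).Connected) →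
      A = univ.biUnion (fun i => ((univ.filter
        (fun u : (Σ i, Fin (s i)) => u.1 = i)).powerset.erase ∅)) :=
    fun A hA => Finset.ext fun S => (hA S).trans (h1 S)
  refine Eq.trans (congrArg (fun A => ∑ S ∈ A, (X : ℝ[X]) ^ Finset.card S) (h4 _ ?_)) ?_
  · intro S
    simp only [mem_filter, mem_univ, true_and]
  rw [sum_biUnion]
  · exact sum_congr rfl fun i _ => h2 i
  · intro i _ j _ hij
    rw [Function.onFun, disjoint_left]
    intro S hi hj
    simp only [mem_erase, mem_powerset] at hi hj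
    obtain ⟨u, hu⟩ := nonempty_iff_ne_empty.mpr hi.1
    have a := (mem_filter.mp (hi.2 hu)).2
    have b := (mem_filter.mp (hj.2 hu)).2
    exact hij (a.symm.trans b)

lemma build (d : ℕ) : ∃ (ι : Type) (_ : Fintype ι) (s : ι → ℕ), (d ≠ 0 → ∃ i, s i ≠ 0) ∧
    (X + ∑ i, ((1 + X : ℝ[X]) ^ s i - 1)).Monic ∧
    (X + ∑ i, ((1 + X : ℝ[X]) ^ s i - 1)).natDegree = d + 1 ∧
    AllReal (X + ∑ i, ((1 + X : ℝ[X]) ^ s i - 1)) := by
  induction d with
  | zero =>
    refine ⟨Empty, inferInstance, fun _ => 0, by simp, by simp [monic_X], by simp, ?_⟩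
    intro z hz
    simp at hz
    simp [hz]
  | succ d ih =>
    obtain ⟨ι, _, s, -, hm, hd, hr⟩ := ih
    set a := Fintype.card ι + 2 with ha
    refine ⟨Option ι ⊕ (Fin a × ι), inferInstance,
      Sum.elim (fun o => o.elim 2 (fun i => s i + 1)) (fun p => s p.2), fun _ => ⟨.inl none, by simp⟩, ?_⟩
    have key : (X + ∑ i : Option ι ⊕ (Fin a × ι), ((1 + X : ℝ[X]) ^
        (Sum.elim (fun o : Option ι => o.elim 2 (fun i => s i + 1)) (fun p : Fin a × ι => s p.2) i) - 1))
        = (X + C ((a : ℝ) + 1)) * (X + ∑ i, ((1 + X : ℝ[X]) ^ s i - 1)) := by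
      rw [Fintype.sum_sum_type, Fintype.sum_option, Fintype.sum_prod_type]
      simp only [Sum.elim_inl, Sum.elim_inr, Option.elim_none, Option.elim_some, sum_const,
        card_univ, Fintype.card_fin, sum_sub_distrib, pow_succ, ← sum_mul, map_add, map_one,
        map_natCast, nsmul_eq_mul, ha]
      push_cast
      ring
    rw [key]
    refine ⟨(monic_X_add_C _).mul hm, ?_, ?_⟩
    · rw [(monic_X_add_C _).natDegree_mul hm, hd, natDegree_X_add_C]; ring
    · intro z hz
      rw [map_mul, mul_eq_zero] at hz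
      rcases hz with hz | hz
      · have := congrArg Complex.im hz
        simpa using this
      · exact hr z hz

theorem result (d : ℕ) (hd : 2 ≤ d) :
    ∃ (V : Type) (_ : Fintype V) (G : SimpleGraph V), ¬ G.Preconnected ∧
      (Cpoly G).natDegree = d ∧ AllReal (Cpoly G) ∧ AllReal (NRel G) := by
  classical
  obtain ⟨ι, _, s, hs, -, hdeg, hr⟩ := build (d - 1)
  obtain ⟨i, hi⟩ := hs (by omega)
  let t : Option ι → ℕ := fun o => o.elim 1 s
  have hC : Cpoly (cl t) = X + ∑ i, ((1 + X : ℝ[X]) ^ s i - 1) := by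
    rw [cl_poly, Fintype.sum_option]
    simp [t]
  refine ⟨_, inferInstance, cl t, fun h => ?_, by rw [hC, hdeg]; omega, hC ▸ hr,
    nrel_of_c _ (hC ▸ hr)⟩
  have h0 : 0 < t none := by simp [t]
  have h1 : 0 < t (some i) := by simp [t]; omega
  obtain ⟨p⟩ := h ⟨none, ⟨0, h0⟩⟩ ⟨some i, ⟨0, h1⟩⟩
  have : ∀ (u v : Σ o, Fin (t o)) (p : (cl t).Walk u v), u.1 = v.1 := by
    intro u v p
    induction p with
    | nil => rfl
    | cons h _ ih => exact h.2.trans ih
  have := this _ _ p
  simp at this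

end Pool.Agent.Results.MP_51a8c5_co.Cliques
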